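import Mathlib

/-!
# Continuous horizontally rigid functions are affine in every dimension

Let `f : ℝⁿ → ℝ` be continuous, and suppose that for every power `c = qʲ` (`j ∈ ℤ`) of one positive
number `q ≠ 1` the graph of `x ↦ f (c x)` is isometric to the graph of `f`. Then `f` is affine.

Sketch of the proof. Let `K` be the closed convex cone of the directions `w` in `ℝⁿ × ℝ` along
which the epigraph of `f` recedes. The cone of `x ↦ f (c x)` is the image of `K` under
`(ξ, η) ↦ (ξ / c, η)` and, up to sign, also under a linear isometry. Letting `c → 0` one finds a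
one-dimensional orthogonal direct summand of `K`, and an exchange argument shows that
`K = {(ξ, η) : ξ ∈ P, η ≥ ⟨β, ξ⟩}` with a closed convex cone `P` whose lineality space contains `β`.
The unit vectors spanning such summands are pairwise orthogonal, so there are finitely many of
them. By the pigeonhole principle the isometries belonging to infinitely many `c` carry the same
vector to the unit normals of slope `c β`; quotients of these isometries give similarity relations
`f (T y) = σ f y + κ` on the orthogonal complement of the lineality space, with different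
exponents, and these force `f` to be constant there.
-/

set_option autoImplicit false
set_option linter.unusedSectionVars false

open Filter Topology Set

namespace Pool.Agent.Results.MP_530d8e_an.HorizontallyRigid

variable {E : Type} [NormedAddCommGroup E] [InnerProductSpace ℝ E]

/-- `E × ℝ` with the Euclidean norm. -/
abbrev V (E : Type) : Type := WithLp 2 (E × ℝ)

/-- the point `(x, y)` of `E × ℝ` -/
def mk (x : E) (y : ℝ) : V E := WithLp.toLp 2 (x, y)

@[simp] theorem mk_fst (x : E) (y : ℝ) : (mk x y).fst = x := rfl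
@[simp] theorem mk_snd (x : E) (y : ℝ) : (mk x y).snd = y := rfl

theorem mk_eta (p : V E) : mk p.fst p.snd = p := rfl

theorem mk_add (x x' : E) (y y' : ℝ) : mk x y + mk x' y' = mk (x + x') (y + y') := rfl

theorem smul_mk (t : ℝ) (x : E) (y : ℝ) : t • mk x y = mk (t • x) (t * y) := rfl

theorem neg_mk (x : E) (y : ℝ) : -mk x y = mk (-x) (-y) := rfl

theorem sub_mk (x x' : E) (y y' : ℝ) : mk x y - mk x' y' = mk (x - x') (y - y') := rfl

theorem ext_mk {p q : V E} (h1 : p.fst = q.fst) (h2 : p.snd = q.snd) : p = q := by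
  rw [← mk_eta p, ← mk_eta q, h1, h2]

theorem inner_V (p q : V E) : inner ℝ p q = inner ℝ p.fst q.fst + p.snd * q.snd := by
  rw [WithLp.prod_inner_apply]
  congr 1
  exact mul_comm _ _

theorem continuous_mk' : Continuous fun z : E × ℝ => mk z.1 z.2 :=
  WithLp.prod_continuous_toLp 2 E ℝ

theorem continuous_fst' : Continuous fun p : V E => p.fst :=
  continuous_fst.comp (WithLp.prod_continuous_ofLp 2 E ℝ)

theorem continuous_snd' : Continuous fun p : V E => p.snd :=
  continuous_snd.comp (WithLp.prod_continuous_ofLp 2 E ℝ)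

theorem norm_fst_le (p : V E) : ‖p.fst‖ ≤ ‖p‖ := by
  have h1 : ‖p‖ ^ 2 = ‖p.fst‖ ^ 2 + p.snd ^ 2 := by
    rw [← real_inner_self_eq_norm_sq, inner_V, real_inner_self_eq_norm_sq]; ring
  have h2 : ‖p.fst‖ ^ 2 ≤ ‖p‖ ^ 2 := by rw [h1]; nlinarith [sq_nonneg p.snd]
  exact (pow_le_pow_iff_left₀ (norm_nonneg _) (norm_nonneg _) (by norm_num)).1 h2

theorem norm_mk_le (x : E) (y : ℝ) : ‖mk x y‖ ≤ ‖x‖ + |y| := by
  have h1 : ‖mk x y‖ ^ 2 = ‖x‖ ^ 2 + y ^ 2 := by
    rw [← real_inner_self_eq_norm_sq, inner_V, mk_fst, mk_snd, real_inner_self_eq_norm_sq]; ring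
  have h2 : ‖mk x y‖ ^ 2 ≤ (‖x‖ + |y|) ^ 2 := by
    rw [h1]
    have := mul_nonneg (norm_nonneg x) (abs_nonneg y)
    nlinarith [sq_abs y]
  exact (pow_le_pow_iff_left₀ (norm_nonneg _) (by positivity) (by norm_num)).1 h2

/-- the vertical unit vector -/
def e0 : V E := mk 0 1

theorem norm_e0 : ‖(e0 : V E)‖ = 1 := by
  have h1 : ‖(e0 : V E)‖ ^ 2 = 1 := by
    rw [← real_inner_self_eq_norm_sq, inner_V, e0, mk_fst, mk_snd]; simp
  nlinarith [norm_nonneg (e0 : V E)]

/-- the exchange lemma for one-dimensional direct summands of a convex cone -/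
theorem exchange {W : Type} [AddCommGroup W] [Module ℝ W] {K : Set W}
    (hsmul : ∀ w ∈ K, ∀ t : ℝ, 0 ≤ t → t • w ∈ K)
    {q q' : W} {l l' : W →ₗ[ℝ] ℝ} (hq' : q' ∈ K) (hq : q ∈ K)
    (hl : ∀ w ∈ K, 0 ≤ l w ∧ w - l w • q ∈ K) (hl' : ∀ w ∈ K, 0 ≤ l' w ∧ w - l' w • q' ∈ K)
    (h1 : l q = 1) (h1' : l' q' = 1) (hpos : 0 < l q') :
    q' - l q' • q ∈ K ∧ -(q' - l q' • q) ∈ K := by
  refine ⟨(hl q' hq').2, ?_⟩
  set α := l q' with hα
  set k := q' - α • q with hk
  have hkK : k ∈ K := (hl q' hq').2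
  have hlk : l k = 0 := by rw [hk, map_sub, map_smul, h1, smul_eq_mul, mul_one, hα, sub_self]
  set β := l' q with hβ
  have hβ0 : 0 ≤ β := (hl' q hq).1
  rcases hβ0.eq_or_lt with h0 | h0
  · exfalso
    have h2 : l' k = 1 := by rw [hk, map_sub, map_smul, h1', ← hβ, ← h0, smul_zero, sub_zero]
    have h3 := (hl' k hkK).2
    rw [h2, one_smul, hk] at h3
    have h4 := (hl _ h3).1
    rw [map_sub, map_sub, map_smul, h1, ← hα, smul_eq_mul, mul_one] at h4
    linarith
  · have h2 := (hl' q hq).2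
    rw [← hβ] at h2
    have h3 := (hl _ h2).2
    have h4 : l (q - β • q') = 1 - β * α := by
      rw [map_sub, map_smul, h1, smul_eq_mul, ← hα]
    rw [h4] at h3
    have h5 : q - β • q' - (1 - β * α) • q = β • (-k) := by
      rw [hk]
      module
    rw [h5] at h3
    have h6 := hsmul _ h3 β⁻¹ (inv_nonneg.2 h0.le)
    rwa [smul_smul, inv_mul_cancel₀ h0.ne', one_smul] at h6

/-- a bounded family has a limit along an ultrafilter -/
theorem exists_lim {W : Type} [NormedAddCommGroup W] [ProperSpace W] (U : Ultrafilter ℝ) {g : ℝ → W}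
    {C : ℝ} (h : ∀ᶠ c in (U : Filter ℝ), ‖g c‖ ≤ C) : ∃ x, Tendsto g U (𝓝 x) := by
  have hK : IsCompact (Metric.closedBall (0 : W) C) := isCompact_closedBall _ _
  have h1 : ((U.map g : Ultrafilter W) : Filter W) ≤ 𝓟 (Metric.closedBall (0 : W) C) := by
    rw [le_principal_iff]
    show g ⁻¹' _ ∈ (U : Filter ℝ)
    filter_upwards [h] with c hc
    simpa using hc
  obtain ⟨x, _, hx⟩ := hK.ultrafilter_le_nhds (U.map g) h1
  exact ⟨x, hx⟩


theorem snd_eq_inner (p : V E) : p.snd = inner ℝ e0 p := by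
  rw [inner_V, e0, mk_fst, mk_snd, inner_zero_left, zero_add, one_mul]

/-- **Structure of the cone of graph directions.** -/
theorem cone_structure [FiniteDimensional ℝ E] {K : Set (V E)} (hclosed : IsClosed K)
    (hadd : ∀ w ∈ K, ∀ w' ∈ K, w + w' ∈ K) (hsmul : ∀ w ∈ K, ∀ t : ℝ, 0 ≤ t → t • w ∈ K)
    (he0 : e0 ∈ K) (hneg : ∀ y : ℝ, mk (0 : E) y ∈ K → 0 ≤ y)
    {C : Set ℝ} (hC : (𝓝[>] (0 : ℝ) ⊓ 𝓟 C).NeBot) (hR' : ∀ c ∈ C, 0 < c →
      ∃ R : V E ≃ₗᵢ[ℝ] V E, ∀ w, w ∈ K ↔ mk (c • (R w).fst) (R w).snd ∈ K) :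
    ∃ β : E, (∀ w ∈ K, inner ℝ β w.fst ≤ w.snd ∧ mk w.fst (inner ℝ β w.fst) ∈ K) ∧
      mk β (inner ℝ β β) ∈ K ∧ mk (-β) (-inner ℝ β β) ∈ K := by
  choose! R hR0 using hR'
  have hR : ∀ c, (c ∈ C ∧ 0 < c) → ∀ w, w ∈ K ↔ mk (c • (R c w).fst) (R c w).snd ∈ K :=
    fun c hc => hR0 c hc.1 hc.2
  set U : Ultrafilter ℝ := Ultrafilter.of (𝓝[>] (0 : ℝ) ⊓ 𝓟 C) with hUdef
  have hU' : (U : Filter ℝ) ≤ 𝓝[>] (0 : ℝ) ⊓ 𝓟 C := Ultrafilter.of_le _
  have hU : (U : Filter ℝ) ≤ 𝓝[>] (0 : ℝ) := hU'.trans inf_le_left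
  have hUC : (U : Filter ℝ) ≤ 𝓟 C := hU'.trans inf_le_right
  have hpos : ∀ᶠ c in (U : Filter ℝ), c ∈ C ∧ 0 < c :=
    (show ∀ᶠ c in (U : Filter ℝ), c ∈ C from hUC (mem_principal_self C)).and
      (hU self_mem_nhdsWithin)
  have hc0 : Tendsto (fun c : ℝ => c) U (𝓝 0) := hU.trans nhdsWithin_le_nhds
  have hnR : ∀ (c : ℝ) (w : V E), ‖(R c w).fst‖ ≤ ‖w‖ := fun c w => by
    have := norm_fst_le (R c w)
    rwa [LinearIsometryEquiv.norm_map] at this
  -- the limit of `R_c⁻¹ e0`
  obtain ⟨e, he⟩ := exists_lim (W := V E) U (g := fun c => (R c).symm e0) (C := 1)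
    (Eventually.of_forall fun c => by rw [LinearIsometryEquiv.norm_map, norm_e0])
  have hne : ‖e‖ = 1 := by
    refine tendsto_nhds_unique he.norm ?_
    have : (fun c => ‖(R c).symm (e0 : V E)‖) = fun _ => (1 : ℝ) := by
      funext c
      rw [LinearIsometryEquiv.norm_map, norm_e0]
    rw [this]
    exact tendsto_const_nhds
  have heK : e ∈ K := by
    refine hclosed.mem_of_tendsto he ?_
    filter_upwards [hpos] with c hc
    rw [hR c hc, LinearIsometryEquiv.apply_symm_apply]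
    have : mk (c • (e0 : V E).fst) (e0 : V E).snd = e0 := by
      show mk (c • (0 : E)) 1 = mk 0 1
      rw [smul_zero]
    rw [this]
    exact he0
  have hsnd : ∀ (c : ℝ) (w : V E), (R c w).snd = inner ℝ ((R c).symm e0) w := by
    intro c w
    rw [snd_eq_inner, LinearIsometryEquiv.inner_map_eq_flip, LinearIsometryEquiv.symm_symm]
  have hsndlim : ∀ w : V E, Tendsto (fun c => (R c w).snd) U (𝓝 (inner ℝ e w)) := by
    intro w
    have : (fun c => (R c w).snd) = fun c => inner ℝ ((R c).symm e0) w := funext fun c => hsnd c w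
    rw [this]
    exact he.inner tendsto_const_nhds
  have hinner : ∀ w ∈ K, 0 ≤ inner ℝ e w := by
    intro w hw
    refine hneg _ (hclosed.mem_of_tendsto (f := fun c => mk (c • (R c w).fst) (R c w).snd)
      (b := (U : Filter ℝ)) ?_ ?_)
    · have h1 : Tendsto (fun c => c • (R c w).fst) U (𝓝 (0 : E)) := by
        rw [tendsto_zero_iff_norm_tendsto_zero]
        have h2 : Tendsto (fun c : ℝ => |c| * ‖w‖) U (𝓝 0) := by
          have := (hc0.abs).mul_const ‖w‖
          simpa using this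
        refine squeeze_zero (fun _ => norm_nonneg _) (fun c => ?_) h2
        rw [norm_smul, Real.norm_eq_abs]
        exact mul_le_mul_of_nonneg_left (hnR c w) (abs_nonneg c)
      exact (continuous_mk'.tendsto ((0 : E), inner ℝ e w)).comp (h1.prodMk_nhds (hsndlim w))
    · filter_upwards [hpos] with c hc
      exact (hR c hc w).1 hw
  have hproj : ∀ w ∈ K, w - (inner ℝ e w : ℝ) • e ∈ K := by
    intro w hw
    rw [← hclosed.closure_eq, Metric.mem_closure_iff]
    intro ε hε
    obtain ⟨ξ, hξ⟩ := exists_lim (W := E) U (g := fun c => (R c w).fst) (C := ‖w‖)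
      (Eventually.of_forall fun c => hnR c w)
    have hac : Tendsto (fun c => w - (inner ℝ ((R c).symm e0) w : ℝ) • (R c).symm e0) U
        (𝓝 (w - (inner ℝ e w : ℝ) • e)) :=
      tendsto_const_nhds.sub ((he.inner tendsto_const_nhds).smul he)
    have e1 : ∀ᶠ c in (U : Filter ℝ),
        dist (w - (inner ℝ ((R c).symm e0) w : ℝ) • (R c).symm e0) (w - (inner ℝ e w : ℝ) • e)
          < ε / 4 := hac.eventually (Metric.ball_mem_nhds _ (by positivity))
    have e2 : ∀ᶠ c in (U : Filter ℝ), dist ((R c w).fst) ξ < ε / 4 :=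
      hξ.eventually (Metric.ball_mem_nhds _ (by positivity))
    obtain ⟨c1, hc1, hc1'⟩ := (hpos.and e2).exists
    set ξ' := (R c1 w).fst with hξ'
    set η' := c1⁻¹ * (R c1 w).snd with hη'
    have hk1 : mk ξ' η' ∈ K := by
      have h1 := hsmul _ ((hR c1 hc1 w).1 hw) c1⁻¹ (inv_nonneg.2 hc1.2.le)
      rwa [smul_mk, smul_smul, inv_mul_cancel₀ hc1.2.ne', one_smul] at h1
    have hk2 : mk ξ' |η'| ∈ K := by
      have h1 := hadd _ hk1 _ (hsmul _ he0 (|η'| - η') (by linarith [le_abs_self η']))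
      have h2 : mk ξ' η' + (|η'| - η') • (e0 : V E) = mk ξ' |η'| := by
        rw [e0, smul_mk, mk_add, smul_zero, add_zero]
        congr 1
        ring
      rwa [h2] at h1
    have e3 : ∀ᶠ c in (U : Filter ℝ), c * |η'| < ε / 4 := by
      have h1 : Tendsto (fun c : ℝ => c * |η'|) U (𝓝 (0 * |η'|)) := hc0.mul_const _
      rw [zero_mul] at h1
      exact h1.eventually (gt_mem_nhds (by positivity))
    obtain ⟨c, ⟨⟨hc, h1c⟩, h2c⟩, h3c⟩ := (((hpos.and e1).and e2).and e3).exists
    refine ⟨(R c).symm (mk ξ' (c * |η'|)), ?_, ?_⟩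
    · rw [hR c hc, LinearIsometryEquiv.apply_symm_apply, mk_fst, mk_snd, ← smul_mk]
      exact hsmul _ hk2 c hc.2.le
    · have h5 : w - (inner ℝ ((R c).symm e0) w : ℝ) • (R c).symm e0 -
          (R c).symm (mk ξ' (c * |η'|)) =
          (R c).symm (mk ((R c w).fst - ξ') (-(c * |η'|))) := by
        apply (R c).injective
        rw [map_sub, map_sub, map_smul, LinearIsometryEquiv.apply_symm_apply,
          LinearIsometryEquiv.apply_symm_apply, LinearIsometryEquiv.apply_symm_apply, ← hsnd]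
        refine ext_mk ?_ ?_
        · show (R c w).fst - (R c w).snd • (0 : E) - ξ' = (R c w).fst - ξ'
          rw [smul_zero, sub_zero]
        · show (R c w).snd - (R c w).snd * 1 - c * |η'| = -(c * |η'|)
          ring
      have h6 : ‖w - (inner ℝ ((R c).symm e0) w : ℝ) • (R c).symm e0 -
          (R c).symm (mk ξ' (c * |η'|))‖ ≤ ‖(R c w).fst - ξ'‖ + |-(c * |η'|)| := by
        rw [h5, LinearIsometryEquiv.norm_map]
        exact norm_mk_le _ _
      have h7 : ‖(R c w).fst - ξ'‖ < ε / 2 := by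
        have := dist_triangle_right ((R c w).fst) ξ' ξ
        rw [← dist_eq_norm]
        linarith
      have h8 : |-(c * |η'|)| = c * |η'| := by
        rw [abs_neg, abs_of_nonneg (mul_nonneg hc.2.le (abs_nonneg _))]
      rw [h8] at h6
      have h9 := dist_triangle_left (w - (inner ℝ e w : ℝ) • e) ((R c).symm (mk ξ' (c * |η'|)))
        (w - (inner ℝ ((R c).symm e0) w : ℝ) • (R c).symm e0)
      rw [dist_eq_norm (w - (inner ℝ ((R c).symm e0) w : ℝ) • (R c).symm e0)
        ((R c).symm (mk ξ' (c * |η'|)))] at h9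
      linarith
  -- the functionals and the directions
  let u : ℝ → V E := fun c => R c e
  let l : ℝ → V E →ₗ[ℝ] ℝ := fun c =>
    { toFun := fun w => inner ℝ (u c) (mk (c⁻¹ • w.fst) w.snd)
      map_add' := fun w w' => by
        rw [← inner_add_right, mk_add, ← smul_add]
        rfl
      map_smul' := fun t w => by
        rw [RingHom.id_apply, smul_eq_mul, ← inner_smul_right, smul_mk, smul_comm t]
        rfl }
  have hl_apply : ∀ c w, l c w = c⁻¹ * inner ℝ (u c).fst w.fst + (u c).snd * w.snd := by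
    intro c w
    show inner ℝ (u c) (mk (c⁻¹ • w.fst) w.snd) = _
    rw [inner_V, mk_fst, mk_snd, inner_smul_right]
  let q : ℝ → V E := fun c => mk (c • (u c).fst) (u c).snd
  have hnu : ∀ c, inner ℝ (u c) (u c) = (1 : ℝ) := by
    intro c
    rw [real_inner_self_eq_norm_sq, LinearIsometryEquiv.norm_map, hne, one_pow]
  have hqK : ∀ c, (c ∈ C ∧ 0 < c) → q c ∈ K := fun c hc => (hR c hc e).1 heK
  have hlK : ∀ c, (c ∈ C ∧ 0 < c) → ∀ w ∈ K, 0 ≤ l c w ∧ w - l c w • q c ∈ K := by
    intro c hc w hw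
    set w' := (R c).symm (mk (c⁻¹ • w.fst) w.snd) with hw'
    have hw'K : w' ∈ K := by
      rw [hR c hc, hw', LinearIsometryEquiv.apply_symm_apply, mk_fst, mk_snd, smul_smul,
        mul_inv_cancel₀ hc.2.ne', one_smul]
      exact hw
    have h1 : inner ℝ e w' = l c w := by
      show _ = inner ℝ (R c e) (mk (c⁻¹ • w.fst) w.snd)
      rw [LinearIsometryEquiv.inner_map_eq_flip]
    refine ⟨by rw [← h1]; exact hinner _ hw'K, ?_⟩
    have h2 := (hR c hc _).1 (hproj _ hw'K)
    rw [h1, map_sub, map_smul, hw', LinearIsometryEquiv.apply_symm_apply] at h2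
    convert h2 using 1
    refine ext_mk ?_ ?_
    · show w.fst - l c w • (c • (u c).fst) = c • (c⁻¹ • w.fst - l c w • (u c).fst)
      rw [smul_sub, smul_smul c c⁻¹, mul_inv_cancel₀ hc.2.ne', one_smul, smul_comm c]
    · rfl
  have hlq : ∀ c, (c ∈ C ∧ 0 < c) → l c (q c) = 1 := by
    intro c hc
    rw [hl_apply, ← hnu c, inner_V]
    show c⁻¹ * inner ℝ (u c).fst (c • (u c).fst) + _ = _
    rw [inner_smul_right, ← mul_assoc, inv_mul_cancel₀ hc.2.ne', one_mul]
    rfl
  have hulim : Tendsto u U (𝓝 e0) := by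
    rw [tendsto_iff_norm_sub_tendsto_zero]
    have h1 : (fun c => ‖u c - e0‖) = fun c => ‖e - (R c).symm e0‖ := by
      funext c
      rw [← LinearIsometryEquiv.norm_map (R c) (e - (R c).symm e0), map_sub,
        LinearIsometryEquiv.apply_symm_apply]
    rw [h1]
    have h2 := (tendsto_const_nhds (x := e) (f := (U : Filter ℝ))).sub he
    rw [sub_self] at h2
    simpa using h2.norm
  have hnear : ∀ᶠ c in (U : Filter ℝ), ‖u c - e0‖ < 1 / 2 := by
    have h1 := hulim.eventually (Metric.ball_mem_nhds (e0 : V E) (show (0 : ℝ) < 1 / 2 by norm_num))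
    filter_upwards [h1] with c hc
    rwa [dist_eq_norm] at hc
  have hcomp : ∀ c, ‖u c - e0‖ < 1 / 2 → ‖(u c).fst‖ < 1 / 2 ∧ 1 / 2 < (u c).snd := by
    intro c hc
    constructor
    · have := norm_fst_le (u c - e0)
      have h2 : (u c - e0).fst = (u c).fst := by
        show (u c).fst - (0 : E) = _
        rw [sub_zero]
      rw [h2] at this
      linarith
    · have h1 : |(u c - e0).snd| ≤ ‖u c - e0‖ := by
        rw [snd_eq_inner]
        refine (abs_real_inner_le_norm _ _).trans ?_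
        rw [norm_e0, one_mul]
      have h2 : (u c - e0).snd = (u c).snd - 1 := rfl
      rw [h2] at h1
      have h3 := (abs_le.1 h1).1
      linarith
  obtain ⟨c0, hc0mem, hc0near⟩ := (hpos.and hnear).exists
  have hc0pos : 0 < c0 := hc0mem.2
  obtain ⟨hu1, hu2⟩ := hcomp c0 hc0near
  set a := (u c0).snd with ha
  have hev : ∀ᶠ c in (U : Filter ℝ), q c - l c0 (q c) • q c0 ∈ K ∧
      -(q c - l c0 (q c) • q c0) ∈ K := by
    have hsmall : ∀ᶠ c in (U : Filter ℝ), c < c0 := hc0.eventually (gt_mem_nhds hc0pos)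
    filter_upwards [hpos, hnear, hsmall] with c hc hcn hcs
    obtain ⟨hv1, hv2⟩ := hcomp c hcn
    refine exchange hsmul (hqK c hc) (hqK c0 hc0mem) (hlK c0 hc0mem) (hlK c hc) (hlq c0 hc0mem)
      (hlq c hc) ?_
    have hc' : 0 < c := hc.2
    rw [hl_apply]
    show 0 < c0⁻¹ * inner ℝ (u c0).fst (c • (u c).fst) + (u c0).snd * (u c).snd
    rw [inner_smul_right, ← mul_assoc]
    have h1 : |inner ℝ (u c0).fst (u c).fst| ≤ 1 / 4 := by
      refine (abs_real_inner_le_norm _ _).trans ?_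
      nlinarith [norm_nonneg (u c0).fst, norm_nonneg (u c).fst]
    have h2 : 0 ≤ c0⁻¹ * c ∧ c0⁻¹ * c ≤ 1 := by
      refine ⟨by positivity, ?_⟩
      rw [inv_mul_le_iff₀ hc0pos]
      linarith
    have h3 := (abs_le.1 h1).1
    have h4 : -(1 / 4) ≤ c0⁻¹ * c * inner ℝ (u c0).fst (u c).fst := by nlinarith
    have h5 : 1 / 4 < (u c0).snd * (u c).snd := by nlinarith
    linarith
  have hqlim : Tendsto q U (𝓝 e0) := by
    have h1 : Tendsto (fun c => c • (u c).fst) U (𝓝 ((0 : ℝ) • (e0 : V E).fst)) :=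
      hc0.smul ((continuous_fst'.tendsto _).comp hulim)
    have h2 : Tendsto (fun c => (u c).snd) U (𝓝 (e0 : V E).snd) :=
      (continuous_snd'.tendsto _).comp hulim
    have h3 := (continuous_mk'.tendsto ((0 : ℝ) • (e0 : V E).fst, (e0 : V E).snd)).comp
      (h1.prodMk_nhds h2)
    have h4 : mk ((0 : ℝ) • (e0 : V E).fst) (e0 : V E).snd = e0 := by rw [zero_smul]; rfl
    rw [h4] at h3
    exact h3
  have hlcont : Continuous (l c0) := LinearMap.continuous_of_finiteDimensional _
  have hle0 : l c0 e0 = a := by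
    rw [hl_apply]
    show c0⁻¹ * inner ℝ (u c0).fst (0 : E) + (u c0).snd * 1 = a
    rw [inner_zero_right, mul_zero, zero_add, mul_one]
  have hlim : Tendsto (fun c => q c - l c0 (q c) • q c0) U (𝓝 (e0 - a • q c0)) := by
    have h1 := ((hlcont.tendsto e0).comp hqlim)
    rw [hle0] at h1
    exact hqlim.sub (h1.smul tendsto_const_nhds)
  have hm1 : e0 - a • q c0 ∈ K := hclosed.mem_of_tendsto hlim (hev.mono fun _ h => h.1)
  have hm2 : -(e0 - a • q c0) ∈ K := hclosed.mem_of_tendsto hlim.neg (hev.mono fun _ h => h.2)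
  have ha0 : 0 < a := by linarith
  set β : E := (-(c0 * a)⁻¹) • (u c0).fst with hβ
  have hin : ∀ x : E, inner ℝ β x = -(c0 * a)⁻¹ * inner ℝ (u c0).fst x := by
    intro x
    rw [hβ, real_inner_smul_left]
  have hkey : ∀ w ∈ K, inner ℝ β w.fst ≤ w.snd ∧ mk w.fst (inner ℝ β w.fst) ∈ K := by
    intro w hw
    obtain ⟨h1, h2⟩ := hlK c0 hc0mem w hw
    have h3 : w.snd - l c0 w / a = inner ℝ β w.fst := by
      rw [hin, hl_apply, ← ha]
      field_simp
      ring
    constructor
    · rw [← h3]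
      have : 0 ≤ l c0 w / a := by positivity
      linarith
    · have h4 := hadd _ h2 _ (hsmul _ hm2 (l c0 w / a) (by positivity))
      have h5 : w - l c0 w • q c0 + (l c0 w / a) • -(e0 - a • q c0) = w - (l c0 w / a) • e0 := by
        have : l c0 w • q c0 = (l c0 w / a) • (a • q c0) := by
          rw [smul_smul, div_mul_cancel₀ _ ha0.ne']
        rw [this]
        module
      rw [h5] at h4
      have h6 : w - (l c0 w / a) • e0 = mk w.fst (inner ℝ β w.fst) := by
        refine ext_mk ?_ ?_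
        · show w.fst - (l c0 w / a) • (0 : E) = w.fst
          rw [smul_zero, sub_zero]
        · show w.snd - (l c0 w / a) * 1 = inner ℝ β w.fst
          rw [mul_one, h3]
      rwa [h6] at h4
  have hs : (0 : ℝ) < (c0 * a) ^ 2 := by positivity
  have hfst : (e0 - a • q c0).fst = (c0 * a) ^ 2 • β := by
    show (0 : E) - a • (c0 • (u c0).fst) = _
    rw [hβ, smul_smul, smul_smul, zero_sub, ← neg_smul]
    congr 1
    field_simp
  refine ⟨β, hkey, ?_, ?_⟩
  · have h1 := hsmul _ (hkey _ hm1).2 ((c0 * a) ^ 2)⁻¹ (by positivity)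
    rwa [hfst, smul_mk, smul_smul, inv_mul_cancel₀ hs.ne', one_smul, inner_smul_right, ← mul_assoc,
      inv_mul_cancel₀ hs.ne', one_mul] at h1
  · have h1 := hsmul _ (hkey _ hm2).2 ((c0 * a) ^ 2)⁻¹ (by positivity)
    have h2 : (-(e0 - a • q c0)).fst = (c0 * a) ^ 2 • (-β) := by
      show -(e0 - a • q c0).fst = _
      rw [hfst, smul_neg]
    rwa [h2, smul_mk, smul_smul, inv_mul_cancel₀ hs.ne', one_smul, inner_smul_right, ← mul_assoc,
      inv_mul_cancel₀ hs.ne', one_mul, inner_neg_right] at h1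

/-! ### One-dimensional orthogonal direct summands -/

/-- `u` spans a one-dimensional orthogonal direct summand of the convex cone `K`. -/
def RaySummand (K : Set (V E)) (u : V E) : Prop :=
  ‖u‖ = 1 ∧ u ∈ K ∧ ∀ w ∈ K, 0 ≤ inner ℝ u w ∧ w - (inner ℝ u w : ℝ) • u ∈ K

theorem raySummand_orthogonal {K : Set (V E)} (hsmul : ∀ w ∈ K, ∀ t : ℝ, 0 ≤ t → t • w ∈ K)
    {u u' : V E} (hu : RaySummand K u) (hu' : RaySummand K u') (hne : u ≠ u') :
    inner ℝ u u' = (0 : ℝ) := by
  by_contra h0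
  have hpos : 0 < inner ℝ u u' := lt_of_le_of_ne (hu.2.2 u' hu'.2.1).1 (Ne.symm h0)
  let l : V E →ₗ[ℝ] ℝ := (innerSL ℝ u).toLinearMap
  let l' : V E →ₗ[ℝ] ℝ := (innerSL ℝ u').toLinearMap
  have hl : ∀ w, l w = inner ℝ u w := fun w => rfl
  have hl' : ∀ w, l' w = inner ℝ u' w := fun w => rfl
  have h1 : l u = 1 := by rw [hl, real_inner_self_eq_norm_sq, hu.1, one_pow]
  have h1' : l' u' = 1 := by rw [hl', real_inner_self_eq_norm_sq, hu'.1, one_pow]
  obtain ⟨h2, h3⟩ := exchange (l := l) (l' := l') hsmul hu'.2.1 hu.2.1 hu.2.2 hu'.2.2 h1 h1' hpos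
  rw [hl] at h2 h3
  have h4 := (hu'.2.2 _ h2).1
  have h5 := (hu'.2.2 _ h3).1
  rw [inner_neg_right] at h5
  have h6 : inner ℝ u' (u' - (inner ℝ u u' : ℝ) • u) = 1 - (inner ℝ u u' : ℝ) ^ 2 := by
    rw [inner_sub_right, inner_smul_right, real_inner_self_eq_norm_sq, hu'.1, real_inner_comm]
    ring
  rw [h6] at h4 h5
  have h7 : inner ℝ u u' = (1 : ℝ) := by nlinarith
  exact hne ((inner_eq_one_iff_of_norm_eq_one hu.1 hu'.1).1 h7)

theorem raySummand_finite [FiniteDimensional ℝ E] {K : Set (V E)}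
    (hsmul : ∀ w ∈ K, ∀ t : ℝ, 0 ≤ t → t • w ∈ K) : {u | RaySummand K u}.Finite := by
  have h1 : Orthonormal ℝ (Subtype.val : {u | RaySummand K u} → V E) := by
    refine ⟨fun u => u.2.1, fun u u' hne => ?_⟩
    exact raySummand_orthogonal hsmul u.2 u'.2 fun h => hne (Subtype.ext h)
  exact h1.linearIndependent.setFinite

/-! ### The cone of a function and isometries of graphs -/

/-- the graph of `f` -/
def graph (f : E → ℝ) : Set (V E) := {p | p.snd = f p.fst}

/-- the directions in which the epigraph of `f` recedes -/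
def coneK (f : E → ℝ) : Set (V E) :=
  {w | ∀ (x : E) (t : ℝ), 0 ≤ t → f (x + t • w.fst) ≤ f x + t * w.snd}

theorem coneK_closed {f : E → ℝ} (hf : Continuous f) : IsClosed (coneK f) := by
  have : coneK f = ⋂ (x : E), ⋂ (t : ℝ), ⋂ (_ : 0 ≤ t),
      {w : V E | f (x + t • w.fst) ≤ f x + t * w.snd} := by
    ext w
    simp [coneK]
  rw [this]
  refine isClosed_iInter fun x => isClosed_iInter fun t => isClosed_iInter fun _ => ?_
  refine isClosed_le (hf.comp ?_) ?_
  · exact continuous_const.add (continuous_const.smul continuous_fst')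
  · exact continuous_const.add (continuous_const.mul continuous_snd')

theorem coneK_add {f : E → ℝ} : ∀ w ∈ coneK f, ∀ w' ∈ coneK f, w + w' ∈ coneK f := by
  intro w hw w' hw' x t ht
  have h1 := hw' (x + t • w.fst) t ht
  have h2 := hw x t ht
  show f (x + t • (w.fst + w'.fst)) ≤ f x + t * (w.snd + w'.snd)
  rw [smul_add, ← add_assoc]
  linarith

theorem coneK_smul {f : E → ℝ} : ∀ w ∈ coneK f, ∀ t : ℝ, 0 ≤ t → t • w ∈ coneK f := by
  intro w hw s hs x t ht
  have h1 := hw x (t * s) (mul_nonneg ht hs)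
  show f (x + t • (s • w.fst)) ≤ f x + t * (s * w.snd)
  rw [smul_smul, ← mul_assoc]
  exact h1

theorem e0_mem_coneK {f : E → ℝ} : e0 ∈ coneK f := by
  intro x t ht
  show f (x + t • (0 : E)) ≤ f x + t * 1
  rw [smul_zero, add_zero]
  linarith

theorem coneK_vertical {f : E → ℝ} (y : ℝ) (h : mk (0 : E) y ∈ coneK f) : 0 ≤ y := by
  have h1 := h 0 1 zero_le_one
  rw [mk_fst, mk_snd, smul_zero, add_zero, one_mul] at h1
  linarith

theorem coneK_scale {f : E → ℝ} {c : ℝ} (hc : 0 < c) (w : V E) :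
    w ∈ coneK (fun x => f (c • x)) ↔ mk (c • w.fst) w.snd ∈ coneK f := by
  constructor
  · intro h x t ht
    have h1 := h (c⁻¹ • x) t ht
    simp only [smul_add, smul_smul, mul_inv_cancel₀ hc.ne', one_smul] at h1
    show f (x + t • (c • w.fst)) ≤ f x + t * w.snd
    rw [smul_smul, mul_comm t c]
    exact h1
  · intro h x t ht
    have h1 := h (c • x) t ht
    show f (c • (x + t • w.fst)) ≤ f (c • x) + t * w.snd
    rw [smul_add, smul_smul, mul_comm c t, ← smul_smul]
    exact h1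

theorem upper_preconnected {f : E → ℝ} (hf : Continuous f) :
    IsPreconnected {p : V E | f p.fst < p.snd} := by
  have h1 : {p : V E | f p.fst < p.snd} =
      (fun z : E × ℝ => mk z.1 (f z.1 + z.2)) '' (univ ×ˢ Ioi 0) := by
    ext p
    constructor
    · intro hp
      refine ⟨(p.fst, p.snd - f p.fst), ⟨mem_univ _, ?_⟩, ?_⟩
      · show 0 < p.snd - f p.fst
        have : f p.fst < p.snd := hp
        linarith
      · show mk p.fst (f p.fst + (p.snd - f p.fst)) = p
        rw [add_sub_cancel]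
        exact mk_eta p
    · rintro ⟨z, ⟨_, hz⟩, rfl⟩
      have : 0 < z.2 := hz
      show f z.1 < f z.1 + z.2
      linarith
  rw [h1]
  refine IsPreconnected.image ?_ _ ?_
  · exact (convex_univ.prod (convex_Ioi 0)).isPreconnected
  · refine Continuous.continuousOn ?_
    exact continuous_mk'.comp (continuous_fst.prodMk ((hf.comp continuous_fst).add continuous_snd))

theorem lower_preconnected {f : E → ℝ} (hf : Continuous f) :
    IsPreconnected {p : V E | p.snd < f p.fst} := by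
  have h1 : {p : V E | p.snd < f p.fst} =
      (fun z : E × ℝ => mk z.1 (f z.1 + z.2)) '' (univ ×ˢ Iio 0) := by
    ext p
    constructor
    · intro hp
      refine ⟨(p.fst, p.snd - f p.fst), ⟨mem_univ _, ?_⟩, ?_⟩
      · show p.snd - f p.fst < 0
        have : p.snd < f p.fst := hp
        linarith
      · show mk p.fst (f p.fst + (p.snd - f p.fst)) = p
        rw [add_sub_cancel]
        exact mk_eta p
    · rintro ⟨z, ⟨_, hz⟩, rfl⟩
      have : z.2 < 0 := hz
      show f z.1 + z.2 < f z.1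
      linarith
  rw [h1]
  refine IsPreconnected.image ?_ _ ?_
  · exact (convex_univ.prod (convex_Iio 0)).isPreconnected
  · refine Continuous.continuousOn ?_
    exact continuous_mk'.comp (continuous_fst.prodMk ((hf.comp continuous_fst).add continuous_snd))

/-- a homeomorphism of `E × ℝ` mapping a graph onto a graph respects or exchanges the two sides -/
theorem sides {f g : E → ℝ} (hf : Continuous f) (hg : Continuous g) (φ : V E ≃ᵢ V E)
    (h : φ '' graph f = graph g) :
    ((∀ p, f p.fst < p.snd ↔ g (φ p).fst < (φ p).snd) ∧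
      (∀ p, p.snd < f p.fst ↔ (φ p).snd < g (φ p).fst)) ∨
    ((∀ p, f p.fst < p.snd ↔ (φ p).snd < g (φ p).fst) ∧
      (∀ p, p.snd < f p.fst ↔ g (φ p).fst < (φ p).snd)) := by
  have hiff : ∀ p, p.snd = f p.fst ↔ (φ p).snd = g (φ p).fst := by
    intro p
    constructor
    · intro hp
      have : φ p ∈ φ '' graph f := ⟨p, hp, rfl⟩
      rw [h] at this
      exact this
    · intro hp
      have : φ p ∈ φ '' graph f := by rw [h]; exact hp
      obtain ⟨q, hq, hqp⟩ := this
      rw [φ.injective hqp] at hq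
      exact hq
  have hUo : IsOpen {p : V E | g p.fst < p.snd} := isOpen_lt (hg.comp continuous_fst') continuous_snd'
  have hDo : IsOpen {p : V E | p.snd < g p.fst} := isOpen_lt continuous_snd' (hg.comp continuous_fst')
  have hdisj : Disjoint {p : V E | g p.fst < p.snd} {p : V E | p.snd < g p.fst} := by
    rw [Set.disjoint_left]
    intro p h1 h2
    exact lt_asymm (show g p.fst < p.snd from h1) h2
  have hU := IsPreconnected.subset_or_subset hUo hDo hdisj (s := φ '' {p : V E | f p.fst < p.snd})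
    (by
      rintro _ ⟨p, hp, rfl⟩
      have hp' : f p.fst < p.snd := hp
      rcases lt_trichotomy (g (φ p).fst) (φ p).snd with h1 | h1 | h1
      · exact Or.inl h1
      · exact absurd ((hiff p).2 h1.symm) hp'.ne'
      · exact Or.inr h1)
    ((upper_preconnected hf).image _ φ.continuous.continuousOn)
  have hD := IsPreconnected.subset_or_subset hUo hDo hdisj (s := φ '' {p : V E | p.snd < f p.fst})
    (by
      rintro _ ⟨p, hp, rfl⟩
      have hp' : p.snd < f p.fst := hp
      rcases lt_trichotomy (g (φ p).fst) (φ p).snd with h1 | h1 | h1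
      · exact Or.inl h1
      · exact absurd ((hiff p).2 h1.symm) hp'.ne
      · exact Or.inr h1)
    ((lower_preconnected hf).image _ φ.continuous.continuousOn)
  have hU' : (∀ p, f p.fst < p.snd → g (φ p).fst < (φ p).snd) ∨
      (∀ p, f p.fst < p.snd → (φ p).snd < g (φ p).fst) := by
    rcases hU with hU | hU
    · exact Or.inl fun p hp => hU ⟨p, hp, rfl⟩
    · exact Or.inr fun p hp => hU ⟨p, hp, rfl⟩
  have hD' : (∀ p : V E, p.snd < f p.fst → g (φ p).fst < (φ p).snd) ∨
      (∀ p : V E, p.snd < f p.fst → (φ p).snd < g (φ p).fst) := by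
    rcases hD with hD | hD
    · exact Or.inl fun p hp => hD ⟨p, hp, rfl⟩
    · exact Or.inr fun p hp => hD ⟨p, hp, rfl⟩
  rcases hU' with hU | hU <;> rcases hD' with hD | hD
  · -- nothing is mapped below the graph of `g`
    exfalso
    set p := φ.symm (mk 0 (g 0 - 1)) with hp
    have hφ : φ p = mk 0 (g 0 - 1) := φ.apply_symm_apply _
    rcases lt_trichotomy (f p.fst) p.snd with h1 | h1 | h1
    · have := hU p h1
      rw [hφ, mk_fst, mk_snd] at this
      linarith
    · have := (hiff p).1 h1.symm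
      rw [hφ, mk_fst, mk_snd] at this
      linarith
    · have := hD p h1
      rw [hφ, mk_fst, mk_snd] at this
      linarith
  · left
    refine ⟨fun p => ⟨hU p, fun hp => ?_⟩, fun p => ⟨hD p, fun hp => ?_⟩⟩
    · rcases lt_trichotomy (f p.fst) p.snd with h1 | h1 | h1
      · exact h1
      · exact absurd ((hiff p).1 h1.symm) hp.ne'
      · exact absurd (hD p h1) (lt_asymm hp)
    · rcases lt_trichotomy (f p.fst) p.snd with h1 | h1 | h1
      · exact absurd (hU p h1) (lt_asymm hp)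
      · exact absurd ((hiff p).1 h1.symm) hp.ne
      · exact h1
  · right
    refine ⟨fun p => ⟨hU p, fun hp => ?_⟩, fun p => ⟨hD p, fun hp => ?_⟩⟩
    · rcases lt_trichotomy (f p.fst) p.snd with h1 | h1 | h1
      · exact h1
      · exact absurd ((hiff p).1 h1.symm) hp.ne
      · exact absurd (hD p h1) (lt_asymm hp)
    · rcases lt_trichotomy (f p.fst) p.snd with h1 | h1 | h1
      · exact absurd (hU p h1) (lt_asymm hp)
      · exact absurd ((hiff p).1 h1.symm) hp.ne'
      · exact h1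
  · exfalso
    set p := φ.symm (mk 0 (g 0 + 1)) with hp
    have hφ : φ p = mk 0 (g 0 + 1) := φ.apply_symm_apply _
    rcases lt_trichotomy (f p.fst) p.snd with h1 | h1 | h1
    · have := hU p h1
      rw [hφ, mk_fst, mk_snd] at this
      linarith
    · have := (hiff p).1 h1.symm
      rw [hφ, mk_fst, mk_snd] at this
      linarith
    · have := hD p h1
      rw [hφ, mk_fst, mk_snd] at this
      linarith

theorem coneA {f g : E → ℝ} (φ : V E ≃ᵢ V E) (O : V E ≃ₗᵢ[ℝ] V E)
    (hO : ∀ p w, φ (p + w) = φ p + O w) (h : ∀ p, f p.fst < p.snd ↔ g (φ p).fst < (φ p).snd)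
    {w : V E} (hw : w ∈ coneK f) : O w ∈ coneK g := by
  intro x t ht
  refine le_of_forall_pos_lt_add fun δ hδ => ?_
  set p := φ.symm (mk x (g x + δ)) with hp
  have hφ : φ p = mk x (g x + δ) := φ.apply_symm_apply _
  have h1 : f p.fst < p.snd := by
    rw [h, hφ, mk_fst, mk_snd]
    linarith
  have h2 := hw p.fst t ht
  have h3 : f (p + t • w).fst < (p + t • w).snd := by
    show f (p.fst + t • w.fst) < p.snd + t * w.snd
    linarith
  rw [h, hO, hφ, map_smul] at h3
  have h4 : g (x + t • (O w).fst) < g x + δ + t * (O w).snd := h3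
  linarith

theorem coneB {f g : E → ℝ} (φ : V E ≃ᵢ V E) (O : V E ≃ₗᵢ[ℝ] V E)
    (hO : ∀ p w, φ (p + w) = φ p + O w) (h : ∀ p, f p.fst < p.snd ↔ (φ p).snd < g (φ p).fst)
    {w : V E} (hw : w ∈ coneK f) : -O w ∈ coneK g := by
  intro x t ht
  refine le_of_forall_pos_lt_add fun δ hδ => ?_
  set x' := x - t • (O w).fst with hx'
  set p := φ.symm (mk x' (g x' - δ)) with hp
  have hφ : φ p = mk x' (g x' - δ) := φ.apply_symm_apply _
  have h1 : f p.fst < p.snd := by
    rw [h, hφ, mk_fst, mk_snd]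
    linarith
  have h2 := hw p.fst t ht
  have h3 : f (p + t • w).fst < (p + t • w).snd := by
    show f (p.fst + t • w.fst) < p.snd + t * w.snd
    linarith
  rw [h, hO, hφ, map_smul] at h3
  have h4 : g x' - δ + t * (O w).snd < g (x' + t • (O w).fst) := h3
  rw [hx', sub_add_cancel, ← hx'] at h4
  show g (x + t • -(O w).fst) < g x + t * -(O w).snd + δ
  rw [smul_neg, ← sub_eq_add_neg, ← hx']
  linarith

/-- The linear part of an isometry mapping a graph onto a graph, up to sign, maps the cone of the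
first function onto the cone of the second. -/
theorem exists_linear {f g : E → ℝ} (hf : Continuous f) (hg : Continuous g) (φ : V E ≃ᵢ V E)
    (h : φ '' graph f = graph g) :
    ∃ (ε : ℝ) (R : V E ≃ₗᵢ[ℝ] V E), (ε = 1 ∨ ε = -1) ∧ (∀ p w, φ (p + w) = φ p + ε • R w) ∧
      ∀ w, w ∈ coneK f ↔ R w ∈ coneK g := by
  set O : V E ≃ₗᵢ[ℝ] V E := φ.toRealAffineIsometryEquiv.linearIsometryEquiv with hOdef
  have hO : ∀ p w, φ (p + w) = φ p + O w := by
    intro p w
    have := φ.toRealAffineIsometryEquiv.map_vadd p w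
    rw [IsometryEquiv.coeFn_toRealAffineIsometryEquiv, vadd_eq_add, vadd_eq_add, add_comm w p,
      add_comm _ (φ p)] at this
    exact this
  have hO' : ∀ p w, φ.symm (p + w) = φ.symm p + O.symm w := by
    intro p w
    apply φ.injective
    rw [hO, φ.apply_symm_apply, φ.apply_symm_apply, LinearIsometryEquiv.apply_symm_apply]
  rcases sides hf hg φ h with ⟨h1, h2⟩ | ⟨h1, h2⟩
  · refine ⟨1, O, Or.inl rfl, fun p w => by rw [one_smul, hO], fun w => ⟨coneA φ O hO h1, ?_⟩⟩
    intro hw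
    have h3 := coneA φ.symm O.symm hO' (f := g) (g := f) (fun p => by
      rw [h1 (φ.symm p), φ.apply_symm_apply]) hw
    rwa [LinearIsometryEquiv.symm_apply_apply] at h3
  · refine ⟨-1, O.trans (LinearIsometryEquiv.neg ℝ), Or.inr rfl, fun p w => ?_, fun w => ⟨fun hw => ?_, fun hw => ?_⟩⟩
    · rw [hO]
      simp
    · exact coneB φ O hO h1 hw
    · have h3 := coneB φ.symm O.symm hO' (f := g) (g := f) (fun p => by
        rw [h2 (φ.symm p), φ.apply_symm_apply]) hw
      have h4 : -O.symm ((O.trans (LinearIsometryEquiv.neg ℝ)) w) = w := by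
        show -O.symm (-(O w)) = w
        rw [map_neg, neg_neg, LinearIsometryEquiv.symm_apply_apply]
      rwa [h4] at h3

/-! ### Functions with two different similarity relations are constant -/

/-- `T` is a surjective similarity with ratio `ρ` and `F ∘ T = σ F + κ`. -/
structure Sim {W : Type} [MetricSpace W] (F : W → ℝ) (T : W → W) (ρ σ κ : ℝ) : Prop where
  dist_eq : ∀ x y, dist (T x) (T y) = ρ * dist x y
  surj : Function.Surjective T
  eq : ∀ x, F (T x) = σ * F x + κ

theorem Sim.iterate {W : Type} [MetricSpace W] {F : W → ℝ} {T : W → W} {ρ σ κ : ℝ}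
    (h : Sim F T ρ σ κ) (k : ℕ) : ∃ κ', Sim F (T^[k]) (ρ ^ k) (σ ^ k) κ' := by
  induction k with
  | zero => exact ⟨0, ⟨fun x y => by simp, Function.surjective_id, fun x => by simp⟩⟩
  | succ k ih =>
    obtain ⟨κ', ih⟩ := ih
    refine ⟨σ ^ k * κ + κ', ⟨fun x y => ?_, ?_, fun x => ?_⟩⟩
    · rw [Function.iterate_succ_apply, Function.iterate_succ_apply, ih.dist_eq, h.dist_eq]
      ring
    · rw [Function.iterate_succ]
      exact ih.surj.comp h.surj
    · rw [Function.iterate_succ_apply, ih.eq, h.eq]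
      ring

theorem Sim.fixed {W : Type} [MetricSpace W] [CompleteSpace W] [Nonempty W] {F : W → ℝ} {T : W → W}
    {ρ σ κ : ℝ} (h : Sim F T ρ σ κ) (h0 : 0 ≤ ρ) (h1 : ρ < 1) : ∃ y, T y = y := by
  have hc : ContractingWith ⟨ρ, h0⟩ T := by
    refine ⟨by exact_mod_cast h1, LipschitzWith.of_dist_le_mul fun x y => ?_⟩
    rw [h.dist_eq]
    exact le_rfl
  exact ⟨_, hc.fixedPoint_isFixedPt⟩

theorem sim_const {W : Type} [MetricSpace W] [ProperSpace W] [Nonempty W] {F : W → ℝ}
    (hF : Continuous F) {T₁ T₂ : W → W} {ρ₁ σ₁ κ₁ ρ₂ σ₂ κ₂ : ℝ} (h₁ : Sim F T₁ ρ₁ σ₁ κ₁)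
    (h₂ : Sim F T₂ ρ₂ σ₂ κ₂) (hρ₂ : 0 < ρ₂) (hρ : ρ₂ ≤ ρ₁) (hρ₁ : ρ₁ < 1) (hσ₁ : 0 < σ₁)
    (hσ : σ₁ < σ₂) (hσ₂ : σ₂ < 1) : ∀ x y, F x = F y := by
  have hρ₁' : 0 < ρ₁ := lt_of_lt_of_le hρ₂ hρ
  obtain ⟨y₁, hy₁⟩ := h₁.fixed hρ₁'.le hρ₁
  obtain ⟨y₂, hy₂⟩ := h₂.fixed hρ₂.le (lt_of_le_of_lt hρ hρ₁)
  have hk₁ : κ₁ = F y₁ - σ₁ * F y₁ := by
    have := h₁.eq y₁
    rw [hy₁] at this
    linarith
  have hk₂ : κ₂ = F y₂ - σ₂ * F y₂ := by
    have := h₂.eq y₂
    rw [hy₂] at this
    linarith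
  have hiter₁ : ∀ (j : ℕ) x, F (T₁^[j] x) - F y₁ = σ₁ ^ j * (F x - F y₁) := by
    intro j
    induction j with
    | zero => intro x; simp
    | succ j ih =>
      intro x
      rw [Function.iterate_succ_apply, ih, h₁.eq, hk₁]
      ring
  have hiter₂ : ∀ (j : ℕ) x, F (T₂^[j] x) - F y₂ = σ₂ ^ j * (F x - F y₂) := by
    intro j
    induction j with
    | zero => intro x; simp
    | succ j ih =>
      intro x
      rw [Function.iterate_succ_apply, ih, h₂.eq, hk₂]
      ring
  have hd₁ : ∀ (j : ℕ) x, dist (T₁^[j] x) y₁ = ρ₁ ^ j * dist x y₁ := by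
    intro j
    induction j with
    | zero => intro x; simp
    | succ j ih =>
      intro x
      rw [Function.iterate_succ_apply, ih]
      nth_rewrite 1 [← hy₁]
      rw [h₁.dist_eq]
      ring
  have hd₂ : ∀ (j : ℕ) x, dist (T₂^[j] x) y₂ = ρ₂ ^ j * dist x y₂ := by
    intro j
    induction j with
    | zero => intro x; simp
    | succ j ih =>
      intro x
      rw [Function.iterate_succ_apply, ih]
      nth_rewrite 1 [← hy₂]
      rw [h₂.dist_eq]
      ring
  have main : ∀ y, F y = F y₁ := by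
    intro y
    set a := dist y y₁ with ha
    set b := dist y₁ y₂ with hb
    obtain ⟨m, hm⟩ := (isCompact_closedBall y₂ (a + b)).exists_bound_of_continuousOn
      (f := fun x => F x - F y₂) (hF.sub continuous_const).continuousOn
    have hm0 : 0 ≤ m := (norm_nonneg _).trans (hm y₂ (Metric.mem_closedBall_self (by positivity)))
    have hbound : ∀ j : ℕ, |F y - F y₁| ≤ m * (σ₁ / σ₂) ^ j + |F y₂ - F y₁| * σ₁ ^ j := by
      intro j
      have hsurj : Function.Surjective (T₁^[j]) := h₁.surj.iterate j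
      obtain ⟨x, hx⟩ := hsurj y
      have e1 : dist x y₁ = a / ρ₁ ^ j := by
        rw [eq_div_iff (by positivity), mul_comm, ← hd₁ j x, hx]
      have e2 : dist (T₂^[j] x) y₂ ≤ a + b := by
        rw [hd₂ j x]
        have h3 : dist x y₂ ≤ a / ρ₁ ^ j + b := by
          have := dist_triangle x y₁ y₂
          rw [e1] at this
          exact this
        have h4 : ρ₂ ^ j ≤ ρ₁ ^ j := pow_le_pow_left₀ hρ₂.le hρ j
        have h5 : ρ₂ ^ j ≤ 1 := pow_le_one₀ hρ₂.le (hρ.trans hρ₁.le)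
        have hb0 : 0 ≤ b := dist_nonneg
        have ha0 : 0 ≤ a := dist_nonneg
        calc ρ₂ ^ j * dist x y₂ ≤ ρ₂ ^ j * (a / ρ₁ ^ j + b) :=
              mul_le_mul_of_nonneg_left h3 (by positivity)
          _ = (ρ₂ ^ j / ρ₁ ^ j) * a + ρ₂ ^ j * b := by ring
          _ ≤ 1 * a + 1 * b := by
              refine add_le_add (mul_le_mul_of_nonneg_right ?_ ha0)
                (mul_le_mul_of_nonneg_right h5 hb0)
              rw [div_le_one (by positivity)]
              exact h4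
          _ = a + b := by ring
      have e3 := hm _ (Metric.mem_closedBall.2 e2)
      rw [Real.norm_eq_abs, hiter₂ j x, abs_mul, abs_of_pos (show 0 < σ₂ ^ j by
        have : 0 < σ₂ := hσ₁.trans hσ
        positivity)] at e3
      have e4 : F y - F y₁ = σ₁ ^ j * (F x - F y₁) := by rw [← hiter₁ j x, hx]
      have hσ₂0 : 0 < σ₂ := hσ₁.trans hσ
      rw [e4, abs_mul, abs_of_pos (show 0 < σ₁ ^ j by positivity)]
      have e5 : |F x - F y₁| ≤ |F x - F y₂| + |F y₂ - F y₁| := by
        have := abs_add_le (F x - F y₂) (F y₂ - F y₁)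
        rwa [sub_add_sub_cancel] at this
      have e6 : |F x - F y₂| ≤ m / σ₂ ^ j := by
        rw [le_div_iff₀ (by positivity), mul_comm]
        exact e3
      calc σ₁ ^ j * |F x - F y₁| ≤ σ₁ ^ j * (m / σ₂ ^ j + |F y₂ - F y₁|) :=
            mul_le_mul_of_nonneg_left (e5.trans (by linarith)) (by positivity)
        _ = m * (σ₁ / σ₂) ^ j + |F y₂ - F y₁| * σ₁ ^ j := by
            rw [div_pow]
            ring
    have hlim : Tendsto (fun j : ℕ => m * (σ₁ / σ₂) ^ j + |F y₂ - F y₁| * σ₁ ^ j) atTop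
        (𝓝 (m * 0 + |F y₂ - F y₁| * 0)) := by
      have hσ₂0 : 0 < σ₂ := hσ₁.trans hσ
      refine ((tendsto_pow_atTop_nhds_zero_of_lt_one (by positivity) ?_).const_mul _).add
        ((tendsto_pow_atTop_nhds_zero_of_lt_one hσ₁.le (hσ.trans hσ₂)).const_mul _)
      rw [div_lt_one hσ₂0]
      exact hσ
    rw [mul_zero, mul_zero, add_zero] at hlim
    have h0 : |F y - F y₁| ≤ 0 := ge_of_tendsto' hlim hbound
    have := abs_nonpos_iff.1 h0
    linarith
  intro x y
  rw [main x, main y]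

theorem sim_const_one {W : Type} [MetricSpace W] [ProperSpace W] [Nonempty W] {F : W → ℝ}
    (hF : Continuous F) {T : W → W} {ρ κ : ℝ} (h : Sim F T ρ 1 κ) (h0 : 0 < ρ) (h1 : ρ < 1) :
    ∀ x y, F x = F y := by
  obtain ⟨y₁, hy₁⟩ := h.fixed h0.le h1
  have hk : κ = 0 := by
    have := h.eq y₁
    rw [hy₁] at this
    linarith
  have hd : ∀ (j : ℕ) x, dist (T^[j] x) y₁ = ρ ^ j * dist x y₁ := by
    intro j
    induction j with
    | zero => intro x; simp
    | succ j ih =>
      intro x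
      rw [Function.iterate_succ_apply, ih]
      nth_rewrite 1 [← hy₁]
      rw [h.dist_eq]
      ring
  have hiter : ∀ (j : ℕ) x, F (T^[j] x) = F x := by
    intro j
    induction j with
    | zero => intro x; rfl
    | succ j ih =>
      intro x
      rw [Function.iterate_succ_apply, ih, h.eq, hk]
      ring
  have main : ∀ y, F y = F y₁ := by
    intro y
    have hlim : Tendsto (fun j : ℕ => T^[j] y) atTop (𝓝 y₁) := by
      rw [tendsto_iff_dist_tendsto_zero]
      have e1 : (fun j : ℕ => dist (T^[j] y) y₁) = fun j => ρ ^ j * dist y y₁ :=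
        funext fun j => hd j y
      rw [e1]
      have := (tendsto_pow_atTop_nhds_zero_of_lt_one h0.le h1).mul_const (dist y y₁)
      rwa [zero_mul] at this
    have h2 := (hF.tendsto y₁).comp hlim
    have e2 : (F ∘ fun j : ℕ => T^[j] y) = fun _ => F y := funext fun j => hiter j y
    rw [e2] at h2
    exact tendsto_nhds_unique tendsto_const_nhds h2
  intro x y
  rw [main x, main y]

/-! ### The main argument -/

section Main

/-- the cone of `f` has the structure given by `cone_structure` -/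
structure Slope (f : E → ℝ) (β : E) : Prop where
  key : ∀ w ∈ coneK f, inner ℝ β w.fst ≤ w.snd ∧ mk w.fst (inner ℝ β w.fst) ∈ coneK f
  pos : mk β (inner ℝ β β) ∈ coneK f
  neg : mk (-β) (-inner ℝ β β) ∈ coneK f

/-- the directions along which `f` is affine with slope `β` -/
def lin (f : E → ℝ) (β : E) : Submodule ℝ E where
  carrier := {ξ | mk ξ (inner ℝ β ξ) ∈ coneK f ∧ mk (-ξ) (-inner ℝ β ξ) ∈ coneK f}
  add_mem' := by
    rintro ξ ξ' ⟨h1, h2⟩ ⟨h1', h2'⟩
    constructor
    · have := coneK_add _ h1 _ h1'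
      rwa [mk_add, ← inner_add_right] at this
    · have := coneK_add _ h2 _ h2'
      rwa [mk_add, ← neg_add, ← neg_add, ← inner_add_right] at this
  zero_mem' := by
    constructor
    · intro x t ht
      simp
    · intro x t ht
      simp
  smul_mem' := by
    rintro t ξ ⟨h1, h2⟩
    rcases le_total 0 t with ht | ht
    · constructor
      · have := coneK_smul _ h1 t ht
        rwa [smul_mk, ← inner_smul_right] at this
      · have := coneK_smul _ h2 t ht
        rwa [smul_mk, smul_neg, mul_neg, ← inner_smul_right] at this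
    · constructor
      · have := coneK_smul _ h2 (-t) (by linarith)
        rwa [smul_mk, smul_neg, neg_smul, neg_neg, neg_mul_neg, ← inner_smul_right] at this
      · have := coneK_smul _ h1 (-t) (by linarith)
        rwa [smul_mk, neg_smul, neg_mul, ← inner_smul_right] at this

theorem mem_lin {f : E → ℝ} {β ξ : E} :
    ξ ∈ lin f β ↔ mk ξ (inner ℝ β ξ) ∈ coneK f ∧ mk (-ξ) (-inner ℝ β ξ) ∈ coneK f := Iff.rfl

theorem Slope.mem {f : E → ℝ} {β : E} (h : Slope f β) : β ∈ lin f β := ⟨h.pos, h.neg⟩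

theorem lin_add {f : E → ℝ} {β ξ : E} (hξ : ξ ∈ lin f β) (x : E) :
    f (x + ξ) = f x + inner ℝ β ξ := by
  have h1 := hξ.1 x 1 zero_le_one
  have h2 := hξ.2 (x + ξ) 1 zero_le_one
  rw [mk_fst, mk_snd, one_smul, one_mul] at h1 h2
  rw [add_neg_cancel_right] at h2
  linarith

/-- the norm of `(-c β, 1)` -/
noncomputable def sc (β : E) (c : ℝ) : ℝ := Real.sqrt (1 + c ^ 2 * inner ℝ β β)

theorem sc_sq (β : E) (c : ℝ) : sc β c ^ 2 = 1 + c ^ 2 * inner ℝ β β := by
  rw [sc, Real.sq_sqrt]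
  have : 0 ≤ inner ℝ β β := real_inner_self_nonneg
  positivity

theorem sc_pos (β : E) (c : ℝ) : 0 < sc β c := by
  rw [sc]
  apply Real.sqrt_pos.2
  have : 0 ≤ inner ℝ β β := real_inner_self_nonneg
  positivity

/-- the unit normal of the hyperplane of slope `c β` -/
noncomputable def un (β : E) (c : ℝ) : V E := (sc β c)⁻¹ • mk (-(c • β)) 1

theorem inner_un (β : E) (c : ℝ) (p : V E) :
    inner ℝ p (un β c) = (sc β c)⁻¹ * (p.snd - c * inner ℝ β p.fst) := by
  rw [un, inner_smul_right, inner_V, mk_fst, mk_snd, inner_neg_right, inner_smul_right,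
    real_inner_comm]
  ring

theorem raySummand_un {f : E → ℝ} {β : E} (h : Slope f β) {c : ℝ} (hc : 0 < c) :
    RaySummand (coneK fun x => f (c • x)) (un β c) := by
  have hs := sc_pos β c
  have hs2 := sc_sq β c
  have hb : 0 ≤ inner ℝ β β := real_inner_self_nonneg
  refine ⟨?_, ?_, ?_⟩
  · have h1 : ‖un β c‖ ^ 2 = 1 := by
      rw [← real_inner_self_eq_norm_sq, inner_un]
      show (sc β c)⁻¹ * ((sc β c)⁻¹ * 1 - c * inner ℝ β ((sc β c)⁻¹ • -(c • β))) = 1
      rw [inner_smul_right, inner_neg_right, inner_smul_right]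
      have : (sc β c)⁻¹ * ((sc β c)⁻¹ * 1 - c * ((sc β c)⁻¹ * -(c * inner ℝ β β))) =
          (1 + c ^ 2 * inner ℝ β β) / sc β c ^ 2 := by
        field_simp
        ring
      rw [this, ← hs2, div_self (by positivity)]
    nlinarith [norm_nonneg (un β c)]
  · rw [coneK_scale hc]
    have h1 := coneK_smul _ (coneK_add _ (coneK_smul _ h.neg (c ^ 2) (by positivity)) _
      (coneK_smul _ (e0_mem_coneK (f := f)) (1 + c ^ 2 * inner ℝ β β) (by positivity)))
      (sc β c)⁻¹ (by positivity)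
    convert h1 using 1
    refine ext_mk ?_ ?_
    · show c • ((sc β c)⁻¹ • -(c • β)) = (sc β c)⁻¹ • (c ^ 2 • -β +
        (1 + c ^ 2 * inner ℝ β β) • (0 : E))
      rw [smul_zero, add_zero, smul_neg, smul_neg, smul_neg, smul_neg, smul_comm c, smul_smul c c,
        pow_two]
    · show (sc β c)⁻¹ * 1 = (sc β c)⁻¹ * (c ^ 2 * -inner ℝ β β + (1 + c ^ 2 * inner ℝ β β) * 1)
      ring
  · intro w hw
    rw [coneK_scale hc] at hw
    obtain ⟨h1, h2⟩ := h.key _ hw
    rw [mk_fst, mk_snd, inner_smul_right] at h1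
    rw [mk_fst, inner_smul_right] at h2
    have hi : inner ℝ (un β c) w = (sc β c)⁻¹ * (w.snd - c * inner ℝ β w.fst) := by
      rw [real_inner_comm, inner_un]
    set d := w.snd - c * inner ℝ β w.fst with hd
    have hd0 : 0 ≤ d := by linarith
    refine ⟨by rw [hi]; positivity, ?_⟩
    rw [coneK_scale hc, hi]
    have h3 := coneK_add _ h2 _ (coneK_smul _ h.pos (d * c ^ 2 / sc β c ^ 2) (by positivity))
    convert h3 using 1
    refine ext_mk ?_ ?_
    · show c • (w.fst - ((sc β c)⁻¹ * d) • ((sc β c)⁻¹ • -(c • β))) =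
        c • w.fst + (d * c ^ 2 / sc β c ^ 2) • β
      rw [smul_neg, smul_neg, sub_neg_eq_add, smul_add, smul_smul, smul_smul, smul_smul]
      congr 2
      field_simp
    · show w.snd - (sc β c)⁻¹ * d * ((sc β c)⁻¹ * 1) =
        c * inner ℝ β w.fst + d * c ^ 2 / sc β c ^ 2 * inner ℝ β β
      have h4 : w.snd = d + c * inner ℝ β w.fst := by rw [hd]; ring
      rw [h4]
      have h5 : d * c ^ 2 / sc β c ^ 2 * inner ℝ β β = d * (sc β c ^ 2 - 1) / sc β c ^ 2 := by
        rw [hs2]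
        ring
      rw [h5]
      field_simp
      ring

/-- the vectors orthogonal to the normal and to all lines in the cone -/
def perp (f : E → ℝ) (β : E) (c : ℝ) : Set (V E) :=
  {p | inner ℝ p (un β c) = (0 : ℝ) ∧ ∀ w, w ∈ coneK (fun x => f (c • x)) →
    -w ∈ coneK (fun x => f (c • x)) → inner ℝ p w = (0 : ℝ)}

theorem mem_perp {f : E → ℝ} {β : E} (h : Slope f β) {c : ℝ} (hc : 0 < c) (p : V E) :
    p ∈ perp f β c ↔ p.snd = 0 ∧ p.fst ∈ (lin f β)ᗮ := by
  have hs := sc_pos β c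
  have hb : 0 ≤ inner ℝ β β := real_inner_self_nonneg
  constructor
  · rintro ⟨h1, h2⟩
    rw [inner_un, mul_eq_zero] at h1
    have h3 : p.snd = c * inner ℝ β p.fst := by
      rcases h1 with h1 | h1
      · exact absurd h1 (by positivity)
      · linarith
    have h4 : ∀ ξ ∈ lin f β, inner ℝ p.fst ξ + p.snd * (c * inner ℝ β ξ) = 0 := by
      intro ξ hξ
      have h5 := h2 (mk ξ (c * inner ℝ β ξ)) (by
        rw [coneK_scale hc, mk_fst, mk_snd, ← smul_mk]
        exact coneK_smul _ hξ.1 c hc.le) (by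
        rw [neg_mk, coneK_scale hc, mk_fst, mk_snd, ← mul_neg, ← smul_mk]
        exact coneK_smul _ hξ.2 c hc.le)
      rwa [inner_V, mk_fst, mk_snd] at h5
    have h6 := h4 β h.mem
    rw [h3, real_inner_comm] at h6
    have h7 : inner ℝ β p.fst * (1 + c ^ 2 * inner ℝ β β) = 0 := by nlinarith
    have h8 : inner ℝ β p.fst = 0 := by
      rcases mul_eq_zero.1 h7 with h8 | h8
      · exact h8
      · exact absurd h8 (by positivity)
    have h9 : p.snd = 0 := by rw [h3, h8, mul_zero]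
    refine ⟨h9, ?_⟩
    rw [Submodule.mem_orthogonal']
    intro ξ hξ
    have := h4 ξ hξ
    rwa [h9, zero_mul, add_zero] at this
  · rintro ⟨h1, h2⟩
    rw [Submodule.mem_orthogonal'] at h2
    constructor
    · rw [inner_un, h1, real_inner_comm, h2 β h.mem, mul_zero, sub_zero, mul_zero]
    · intro w hw hw'
      rw [coneK_scale hc] at hw hw'
      have h3 := h.key _ hw
      have h4 := h.key _ hw'
      have h5 : mk (c • w.fst) w.snd ∈ coneK f := hw
      have h6 : (mk (c • (-w).fst) (-w).snd : V E) = mk (-(c • w.fst)) (-w.snd) := by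
        show (mk (c • -w.fst) (-w.snd) : V E) = _
        rw [smul_neg]
      rw [h6] at h4 hw'
      rw [mk_fst, mk_snd] at h3 h4
      rw [inner_neg_right] at h4
      have h7 : w.snd = inner ℝ β (c • w.fst) := le_antisymm (by linarith [h4.1]) h3.1
      have h8 : c • w.fst ∈ lin f β := by
        rw [mem_lin, ← h7]
        exact ⟨h5, hw'⟩
      have h9 := h2 _ h8
      rw [inner_smul_right, mul_eq_zero] at h9
      rw [inner_V, h1, zero_mul, add_zero]
      rcases h9 with h9 | h9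
      · exact absurd h9 hc.ne'
      · exact h9

variable [FiniteDimensional ℝ E]

theorem f_decomp {f : E → ℝ} {β : E} (h : Slope f β) (x : E) :
    f x = f ((lin f β)ᗮ.starProjection x) + inner ℝ β x := by
  set P := (lin f β)ᗮ.starProjection x with hP
  have h1 : x - P ∈ lin f β := by
    have := Submodule.sub_starProjection_mem_orthogonal (K := (lin f β)ᗮ) x
    rwa [Submodule.orthogonal_orthogonal] at this
  have h2 := lin_add h1 P
  rw [add_sub_cancel, inner_sub_right] at h2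
  have h3 : inner ℝ β P = 0 :=
    (Submodule.mem_orthogonal _ _).1 (Submodule.starProjection_apply_mem _ x) β h.mem
  rw [h3, sub_zero] at h2
  exact h2

theorem similarity {f : E → ℝ} {β : E} (h : Slope f β) {c c' ε : ℝ} (hc : 0 < c) (hc' : 0 < c')
    (hε : ε = 1 ∨ ε = -1) {φ φ' : V E ≃ᵢ V E} {R R' : V E ≃ₗᵢ[ℝ] V E} {e : V E}
    (hφ : φ '' graph f = graph fun x => f (c • x)) (hφ' : φ' '' graph f = graph fun x => f (c' • x))
    (hR : ∀ p w, φ (p + w) = φ p + ε • R w) (hR' : ∀ p w, φ' (p + w) = φ' p + ε • R' w)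
    (hK : ∀ w, w ∈ coneK f ↔ R w ∈ coneK fun x => f (c • x))
    (hK' : ∀ w, w ∈ coneK f ↔ R' w ∈ coneK fun x => f (c' • x))
    (he : R e = un β c) (he' : R' e = un β c') :
    ∃ (T : ↥(lin f β)ᗮ → ↥(lin f β)ᗮ) (κ : ℝ),
      Sim (fun y : ↥(lin f β)ᗮ => f y) T (c' / c) (sc β c' / sc β c) κ := by
  have hεε : ε * ε = 1 := by rcases hε with rfl | rfl <;> norm_num
  set W := (lin f β)ᗮ with hW
  set Θ : V E ≃ₗᵢ[ℝ] V E := R.symm.trans R' with hΘ
  have hΘa : ∀ w, Θ w = R' (R.symm w) := fun w => rfl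
  have hΘs : ∀ w, Θ.symm w = R (R'.symm w) := fun w => rfl
  have hφs : ∀ p w, φ.symm (p + w) = φ.symm p + ε • R.symm w := by
    intro p w
    apply φ.injective
    rw [hR, φ.apply_symm_apply, φ.apply_symm_apply, map_smul, LinearIsometryEquiv.apply_symm_apply,
      smul_smul, hεε, one_smul]
  set ψ : V E → V E := fun p => φ' (φ.symm p) with hψ
  have hψadd : ∀ p w, ψ (p + w) = ψ p + Θ w := by
    intro p w
    show φ' (φ.symm (p + w)) = _
    rw [hφs, hR', map_smul, smul_smul, hεε, one_smul]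
    rfl
  have hψg : ∀ p : V E, p.snd = f (c • p.fst) → (ψ p).snd = f (c' • (ψ p).fst) := by
    intro p hp
    have h1 : p ∈ φ '' graph f := by rw [hφ]; exact hp
    obtain ⟨q, hq, hqp⟩ := h1
    have h2 : ψ p = φ' q := by
      show φ' (φ.symm p) = φ' q
      rw [← hqp, φ.symm_apply_apply]
    have h3 : φ' q ∈ φ' '' graph f := ⟨q, hq, rfl⟩
    rw [hφ'] at h3
    rw [h2]
    exact h3
  have hΘu : Θ (un β c) = un β c' := by
    rw [hΘa, ← he, LinearIsometryEquiv.symm_apply_apply, he']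
  have hΘK : ∀ w, w ∈ coneK (fun x => f (c • x)) ↔ Θ w ∈ coneK (fun x => f (c' • x)) := by
    intro w
    rw [hΘa, ← hK', hK, LinearIsometryEquiv.apply_symm_apply]
  have hperp : ∀ p, p ∈ perp f β c → Θ p ∈ perp f β c' := by
    rintro p ⟨h1, h2⟩
    constructor
    · rw [← hΘu, LinearIsometryEquiv.inner_map_map]
      exact h1
    · intro w hw hw'
      rw [LinearIsometryEquiv.inner_map_eq_flip]
      refine h2 _ ?_ ?_
      · rw [hΘK, LinearIsometryEquiv.apply_symm_apply]
        exact hw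
      · rw [hΘK, map_neg, LinearIsometryEquiv.apply_symm_apply]
        exact hw'
  have hperp' : ∀ p, p ∈ perp f β c' → Θ.symm p ∈ perp f β c := by
    rintro p ⟨h1, h2⟩
    constructor
    · rw [LinearIsometryEquiv.inner_map_eq_flip, LinearIsometryEquiv.symm_symm, hΘu]
      exact h1
    · intro w hw hw'
      rw [LinearIsometryEquiv.inner_map_eq_flip, LinearIsometryEquiv.symm_symm]
      refine h2 _ ?_ ?_
      · rw [← hΘK]
        exact hw
      · rw [← map_neg, ← hΘK]
        exact hw'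
  have hZ : ∀ z ∈ W, (Θ (mk z 0)).snd = 0 ∧ (Θ (mk z 0)).fst ∈ W := fun z hz =>
    (mem_perp h hc' _).1 (hperp _ ((mem_perp h hc _).2 ⟨rfl, hz⟩))
  have hZ' : ∀ z ∈ W, (Θ.symm (mk z 0)).snd = 0 ∧ (Θ.symm (mk z 0)).fst ∈ W := fun z hz =>
    (mem_perp h hc _).1 (hperp' _ ((mem_perp h hc' _).2 ⟨rfl, hz⟩))
  set τ := ψ 0 with hτ
  have hψτ : ∀ p, ψ p = τ + Θ p := by
    intro p
    have := hψadd 0 p
    rwa [zero_add] at this
  have hPe : W.starProjection (Θ e0).fst = 0 := by
    rw [Submodule.starProjection_apply_eq_zero_iff, Submodule.mem_orthogonal']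
    intro y hy
    have h1 : inner ℝ (Θ e0) (mk y 0) = (0 : ℝ) := by
      rw [LinearIsometryEquiv.inner_map_eq_flip, ← snd_eq_inner]
      exact (hZ' y hy).1
    rwa [inner_V, mk_fst, mk_snd, mul_zero, add_zero] at h1
  have hs := sc_pos β c
  have hs' := sc_pos β c'
  refine ⟨fun y => c' • (⟨(Θ (mk (c⁻¹ • (y : E)) 0)).fst, (hZ _ (W.smul_mem _ y.2)).2⟩ +
    ⟨W.starProjection τ.fst, Submodule.starProjection_apply_mem _ _⟩),
    sc β c' * inner ℝ τ (un β c'), ⟨?_, ?_, ?_⟩⟩
  · intro x y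
    rw [dist_eq_norm, dist_eq_norm, ← smul_sub, add_sub_add_right_eq_sub, norm_smul,
      Real.norm_eq_abs, abs_of_pos hc']
    have h1 : ‖(⟨(Θ (mk (c⁻¹ • (x : E)) 0)).fst, (hZ _ (W.smul_mem _ x.2)).2⟩ -
        ⟨(Θ (mk (c⁻¹ • (y : E)) 0)).fst, (hZ _ (W.smul_mem _ y.2)).2⟩ : W)‖ =
        ‖(Θ (mk (c⁻¹ • ((x : E) - y)) 0)).fst‖ := by
      rw [← Submodule.norm_coe]
      congr 1
      show (Θ (mk (c⁻¹ • (x : E)) 0)).fst - (Θ (mk (c⁻¹ • (y : E)) 0)).fst = _
      have h2 : (mk (c⁻¹ • ((x : E) - y)) 0 : V E) = mk (c⁻¹ • (x : E)) 0 - mk (c⁻¹ • (y : E)) 0 := by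
        rw [sub_mk, sub_zero, smul_sub]
      rw [h2, map_sub]
      rfl
    rw [h1]
    have h3 : ‖(Θ (mk (c⁻¹ • ((x : E) - y)) 0)).fst‖ = c⁻¹ * ‖x - y‖ := by
      have h4 := (hZ (c⁻¹ • ((x : E) - y)) (W.smul_mem _ (x - y).2)).1
      have h5 : Θ (mk (c⁻¹ • ((x : E) - y)) 0) =
          mk (Θ (mk (c⁻¹ • ((x : E) - y)) 0)).fst 0 := by
        refine ext_mk rfl ?_
        rw [h4, mk_snd]
      have h6 : ∀ z : E, ‖(mk z 0 : V E)‖ = ‖z‖ := by
        intro z
        have : ‖(mk z 0 : V E)‖ ^ 2 = ‖z‖ ^ 2 := by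
          rw [← real_inner_self_eq_norm_sq, ← real_inner_self_eq_norm_sq, inner_V, mk_fst, mk_snd,
            mul_zero, add_zero]
        exact (pow_left_inj₀ (norm_nonneg _) (norm_nonneg _) two_ne_zero).1 this
      rw [← h6, ← h5, LinearIsometryEquiv.norm_map, h6, norm_smul, Real.norm_eq_abs,
        abs_of_pos (inv_pos.2 hc)]
      rfl
    rw [h3]
    field_simp
  · intro y'
    set z' : E := c'⁻¹ • (y' : E) - W.starProjection τ.fst with hz'
    have hz'W : z' ∈ W := W.sub_mem (W.smul_mem _ y'.2) (Submodule.starProjection_apply_mem _ _)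
    obtain ⟨h1, h2⟩ := hZ' z' hz'W
    refine ⟨⟨c • (Θ.symm (mk z' 0)).fst, W.smul_mem _ h2⟩, ?_⟩
    apply Subtype.ext
    show c' • ((Θ (mk (c⁻¹ • (c • (Θ.symm (mk z' 0)).fst)) 0)).fst + W.starProjection τ.fst) = y'
    rw [smul_smul c⁻¹ c, inv_mul_cancel₀ hc.ne', one_smul]
    have h3 : (mk (Θ.symm (mk z' 0)).fst 0 : V E) = Θ.symm (mk z' 0) := by
      refine ext_mk rfl ?_
      rw [h1, mk_snd]
    rw [h3, LinearIsometryEquiv.apply_symm_apply, mk_fst, hz', sub_add_cancel, smul_smul,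
      mul_inv_cancel₀ hc'.ne', one_smul]
  · intro y
    set z : E := c⁻¹ • (y : E) with hz
    have hzW : z ∈ W := W.smul_mem _ y.2
    have hcz : c • z = y := by rw [hz, smul_smul, mul_inv_cancel₀ hc.ne', one_smul]
    set p : V E := mk z (f y) with hp
    have hpg : p.snd = f (c • p.fst) := by rw [hp, mk_fst, mk_snd, hcz]
    have h1 := hψg p hpg
    rw [f_decomp h (c' • (ψ p).fst), inner_smul_right] at h1
    have h2 : inner ℝ (ψ p) (un β c') = (sc β c')⁻¹ * f (W.starProjection (c' • (ψ p).fst)) := by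
      rw [inner_un, h1]
      congr 1
      ring
    have hp' : p = mk z 0 + f y • e0 := by
      rw [hp, e0, smul_mk, mk_add, smul_zero, add_zero, zero_add, mul_one]
    have h3 : ψ p = τ + (Θ (mk z 0) + f y • Θ e0) := by
      rw [hψτ, hp', map_add, map_smul]
    have h4 : inner ℝ (ψ p) (un β c') = inner ℝ τ (un β c') + f y * (sc β c)⁻¹ := by
      rw [h3, inner_add_left, inner_add_left, real_inner_smul_left, ← hΘu,
        LinearIsometryEquiv.inner_map_map, LinearIsometryEquiv.inner_map_map,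
        ((mem_perp h hc (mk z 0)).2 ⟨rfl, hzW⟩).1, zero_add, inner_un]
      congr 2
      show (sc β c)⁻¹ * ((1 : ℝ) - c * inner ℝ β (0 : E)) = _
      rw [inner_zero_right, mul_zero, sub_zero, mul_one]
    have h5 : W.starProjection (c' • (ψ p).fst) =
        c' • ((Θ (mk z 0)).fst + W.starProjection τ.fst) := by
      rw [map_smul, h3]
      congr 1
      show W.starProjection (τ.fst + ((Θ (mk z 0)).fst + f y • (Θ e0).fst)) = _
      rw [map_add, map_add, map_smul, hPe, smul_zero, add_zero,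
        Submodule.starProjection_eq_self_iff.2 (hZ z hzW).2, add_comm]
    rw [h4, h5] at h2
    show f (c' • ((Θ (mk z 0)).fst + W.starProjection τ.fst)) = _
    have h6 : f (c' • ((Θ (mk z 0)).fst + W.starProjection τ.fst)) =
        sc β c' * (inner ℝ τ (un β c') + f y * (sc β c)⁻¹) := by
      rw [h2, ← mul_assoc, mul_inv_cancel₀ hs'.ne', one_mul]
    rw [h6]
    field_simp
    ring


/-- the inequality between the vertical factors -/
theorem factor_lt {β : E} (hβ : β ≠ 0) {q : ℝ} (hq : 1 < q) {a b : ℕ} (hab : a < b) :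
    ∃ L : ℕ, ∀ d : ℕ, b + L ≤ d →
      (sc β (q ^ b) / sc β (q ^ d)) ^ (b - a) < (sc β (q ^ a) / sc β (q ^ b)) ^ (d - b) := by
  have hB : 0 < ‖β‖ := norm_pos_iff.2 hβ
  have hq0 : 0 < q := by linarith
  set sa := sc β (q ^ a) with hsa
  set sb := sc β (q ^ b) with hsb
  have ha := sc_pos β (q ^ a)
  have hb := sc_pos β (q ^ b)
  rw [← hsa] at ha
  rw [← hsb] at hb
  set D := sb / (‖β‖ * q ^ b) with hD
  set θ := (sa * q ^ b) / (sb * q ^ a) with hθ
  have hD0 : 0 < D := by positivity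
  have hθ1 : 1 < θ := by
    rw [hθ, one_lt_div (by positivity)]
    refine lt_of_pow_lt_pow_left₀ 2 (by positivity) ?_
    rw [mul_pow, mul_pow, hsa, hsb, sc_sq, sc_sq]
    have h1 : q ^ a < q ^ b := pow_lt_pow_right₀ hq hab
    have h2 : (q ^ a) ^ 2 < (q ^ b) ^ 2 := pow_lt_pow_left₀ h1 (by positivity) two_ne_zero
    nlinarith
  obtain ⟨L, hL⟩ := pow_unbounded_of_one_lt (D ^ (b - a)) hθ1
  refine ⟨L, fun d hd => ?_⟩
  have hd' : L ≤ d - b := by omega
  set sd := sc β (q ^ d) with hsd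
  have hsd0 := sc_pos β (q ^ d)
  rw [← hsd] at hsd0
  have h1 : ‖β‖ * q ^ d ≤ sd := by
    refine (pow_le_pow_iff_left₀ (by positivity) hsd0.le two_ne_zero).1 ?_
    rw [hsd, sc_sq, mul_pow, real_inner_self_eq_norm_sq]
    nlinarith
  have h2 : sb / sd ≤ D / q ^ (d - b) := by
    have h3 : q ^ d = q ^ (d - b) * q ^ b := by
      rw [← pow_add]
      congr 1
      omega
    rw [hD, div_div, div_le_div_iff_of_pos_left hb hsd0 (by positivity)]
    calc ‖β‖ * q ^ b * q ^ (d - b) = ‖β‖ * q ^ d := by rw [h3]; ring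
      _ ≤ sd := h1
  have h4 : sa / sb = θ / q ^ (b - a) := by
    have h5 : q ^ b = q ^ (b - a) * q ^ a := by
      rw [← pow_add]
      congr 1
      omega
    rw [hθ, h5]
    field_simp
  rw [h4, div_pow θ, ← pow_mul]
  calc (sb / sd) ^ (b - a) ≤ (D / q ^ (d - b)) ^ (b - a) := pow_le_pow_left₀ (by positivity) h2 _
    _ = D ^ (b - a) / q ^ ((b - a) * (d - b)) := by
        rw [div_pow, ← pow_mul, mul_comm (d - b)]
    _ < θ ^ L / q ^ ((b - a) * (d - b)) := by
        exact div_lt_div_of_pos_right hL (by positivity)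
    _ ≤ θ ^ (d - b) / q ^ ((b - a) * (d - b)) := by
        exact div_le_div_of_nonneg_right (pow_le_pow_right₀ hθ1.le hd') (by positivity)

theorem affine_of_powers {f : E → ℝ} (hf : Continuous f) {q : ℝ} (hq : 1 < q)
    (h : ∀ j : ℤ, ∃ φ : V E ≃ᵢ V E, φ '' graph f = graph fun x => f (q ^ j • x)) :
    ∃ (a : ℝ) (b : E), ∀ x, f x = a + inner ℝ b x := by
  have hq0 : 0 < q := by linarith
  have hfc : ∀ c : ℝ, Continuous fun x => f (c • x) := fun c => hf.comp (continuous_const_smul c)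
  -- structure of the cone
  have hC : (𝓝[>] (0 : ℝ) ⊓ 𝓟 (range fun j : ℤ => q ^ j)).NeBot := by
    have h1 : Tendsto (fun n : ℕ => q ^ (-(n : ℤ))) atTop
        (𝓝[>] (0 : ℝ) ⊓ 𝓟 (range fun j : ℤ => q ^ j)) := by
      refine tendsto_inf.2 ⟨tendsto_nhdsWithin_iff.2 ⟨?_, ?_⟩, ?_⟩
      · have h2 : (fun n : ℕ => q ^ (-(n : ℤ))) = fun n => (q⁻¹) ^ n := by
          funext n
          rw [zpow_neg, zpow_natCast, inv_pow]
        rw [h2]
        exact tendsto_pow_atTop_nhds_zero_of_lt_one (by positivity) (inv_lt_one_of_one_lt₀ hq)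
      · exact Eventually.of_forall fun n => zpow_pos hq0 _
      · rw [tendsto_principal]
        exact Eventually.of_forall fun n => ⟨_, rfl⟩
    exact h1.neBot
  obtain ⟨β, h1, h2, h3⟩ := cone_structure (coneK_closed hf) coneK_add coneK_smul e0_mem_coneK
    coneK_vertical hC (by
      rintro _ ⟨j, rfl⟩ hj
      obtain ⟨φ, hφ⟩ := h j
      obtain ⟨ε, R, hε, hR, hK⟩ := exists_linear hf (hfc _) φ hφ
      exact ⟨R, fun w => by rw [hK, coneK_scale hj]⟩)
  have hS : Slope f β := ⟨h1, h2, h3⟩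
  -- the isometries for the powers of `q`
  have h' : ∀ n : ℕ, ∃ φ : V E ≃ᵢ V E, φ '' graph f = graph fun x => f (q ^ n • x) := by
    intro n
    obtain ⟨φ, hφ⟩ := h n
    refine ⟨φ, ?_⟩
    rw [hφ]
    simp only [zpow_natCast]
  choose φ hφ using h'
  choose ε R hε hR hK using fun n : ℕ => exists_linear hf (hfc (q ^ n)) (φ n) (hφ n)
  have hcpos : ∀ n : ℕ, 0 < q ^ n := fun n => by positivity
  have hmem : ∀ n : ℕ, RaySummand (coneK f) ((R n).symm (un β (q ^ n))) := by
    intro n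
    obtain ⟨e1, e2, e3⟩ := raySummand_un hS (hcpos n)
    refine ⟨by rw [LinearIsometryEquiv.norm_map]; exact e1, ?_, ?_⟩
    · rw [hK n, LinearIsometryEquiv.apply_symm_apply]
      exact e2
    · intro w hw
      obtain ⟨e4, e5⟩ := e3 _ ((hK n w).1 hw)
      rw [LinearIsometryEquiv.inner_map_eq_flip, LinearIsometryEquiv.symm_symm]
      refine ⟨e4, ?_⟩
      rw [hK n, map_sub, map_smul, LinearIsometryEquiv.apply_symm_apply]
      exact e5
  -- pigeonhole
  have hfin : ({u | RaySummand (coneK f) u} ×ˢ ({1, -1} : Set ℝ)).Finite :=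
    (raySummand_finite coneK_smul).prod (Set.toFinite _)
  have : Finite ↥({u | RaySummand (coneK f) u} ×ˢ ({1, -1} : Set ℝ)) := hfin
  obtain ⟨⟨⟨e, ε₀⟩, he, hε₀⟩, hinf⟩ := Finite.exists_infinite_fiber
    (fun n : ℕ => (⟨((R n).symm (un β (q ^ n)), ε n), hmem n, by
      rcases hε n with h4 | h4 <;> simp [h4]⟩ :
        ↥({u | RaySummand (coneK f) u} ×ˢ ({1, -1} : Set ℝ))))
  rw [Set.infinite_coe_iff] at hinf
  have hprop : ∀ n ∈ ((fun n : ℕ => (⟨((R n).symm (un β (q ^ n)), ε n), hmem n, by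
      rcases hε n with h4 | h4 <;> simp [h4]⟩ :
        ↥({u | RaySummand (coneK f) u} ×ˢ ({1, -1} : Set ℝ)))) ⁻¹' {⟨(e, ε₀), he, hε₀⟩}),
      R n e = un β (q ^ n) ∧ ε n = ε₀ := by
    intro n hn
    have h4 : ((R n).symm (un β (q ^ n)), ε n) = (e, ε₀) := congrArg Subtype.val hn
    rw [Prod.mk.injEq] at h4
    refine ⟨?_, h4.2⟩
    rw [← h4.1, LinearIsometryEquiv.apply_symm_apply]
  set I := ((fun n : ℕ => (⟨((R n).symm (un β (q ^ n)), ε n), hmem n, by
      rcases hε n with h4 | h4 <;> simp [h4]⟩ :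
        ↥({u | RaySummand (coneK f) u} ×ˢ ({1, -1} : Set ℝ)))) ⁻¹' {⟨(e, ε₀), he, hε₀⟩}) with hI
  have hsim : ∀ m ∈ I, ∀ n ∈ I, ∃ (T : ↥(lin f β)ᗮ → ↥(lin f β)ᗮ) (κ : ℝ),
      Sim (fun y : ↥(lin f β)ᗮ => f y) T (q ^ m / q ^ n) (sc β (q ^ m) / sc β (q ^ n)) κ := by
    intro m hm n hn
    obtain ⟨hm1, hm2⟩ := hprop m hm
    obtain ⟨hn1, hn2⟩ := hprop n hn
    refine similarity hS (hcpos n) (hcpos m) (ε := ε₀) ?_ (hφ n) (hφ m) ?_ ?_ (hK n) (hK m) hn1 hm1
    · rw [← hn2]; exact hε n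
    · rw [← hn2]; exact hR n
    · rw [← hm2]; exact hR m
  obtain ⟨a, haI⟩ := hinf.nonempty
  obtain ⟨b, hbI, hab⟩ := hinf.exists_gt a
  have hFc : Continuous fun y : ↥(lin f β)ᗮ => f y := hf.comp continuous_subtype_val
  have hconst : ∀ x y : ↥(lin f β)ᗮ, f x = f y := by
    obtain ⟨TA, κA, hA⟩ := hsim a haI b hbI
    have hρA : q ^ a / q ^ b < 1 := by
      rw [div_lt_one (hcpos b)]
      exact pow_lt_pow_right₀ hq hab
    by_cases hβ : β = 0
    · have hs1 : ∀ c, sc β c = 1 := by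
        intro c
        rw [sc, hβ, inner_zero_left, mul_zero, add_zero, Real.sqrt_one]
      rw [hs1, hs1, div_one] at hA
      exact sim_const_one hFc hA (by positivity) hρA
    · obtain ⟨L, hL⟩ := factor_lt hβ hq hab
      obtain ⟨d, hdI, hbd⟩ := hinf.exists_gt (b + L)
      obtain ⟨TB, κB, hB⟩ := hsim b hbI d hdI
      obtain ⟨κA', hA'⟩ := hA.iterate (d - b)
      obtain ⟨κB', hB'⟩ := hB.iterate (b - a)
      have hsa := sc_pos β (q ^ a)
      have hsb := sc_pos β (q ^ b)
      have hsd := sc_pos β (q ^ d)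
      have e1 : q ^ a / q ^ b = (q ^ (b - a))⁻¹ := by
        have : q ^ b = q ^ (b - a) * q ^ a := by
          rw [← pow_add]
          congr 1
          omega
        rw [this]
        field_simp
      have e2 : q ^ b / q ^ d = (q ^ (d - b))⁻¹ := by
        have : q ^ d = q ^ (d - b) * q ^ b := by
          rw [← pow_add]
          congr 1
          omega
        rw [this]
        field_simp
      have e3 : (q ^ a / q ^ b) ^ (d - b) = (q ^ b / q ^ d) ^ (b - a) := by
        rw [e1, e2, inv_pow, inv_pow, ← pow_mul, ← pow_mul, mul_comm]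
      refine sim_const hFc hB' hA' (by positivity) e3.le ?_ (by positivity)
        (hL d (by omega)) ?_
      · refine pow_lt_one₀ (by positivity) ?_ (by omega)
        rw [div_lt_one (hcpos d)]
        exact pow_lt_pow_right₀ hq (by omega)
      · refine pow_lt_one₀ (by positivity) ?_ (by omega)
        rw [div_lt_one hsb]
        refine lt_of_pow_lt_pow_left₀ 2 hsb.le ?_
        rw [sc_sq, sc_sq]
        have h5 : q ^ a < q ^ b := pow_lt_pow_right₀ hq hab
        have h6 : (q ^ a) ^ 2 < (q ^ b) ^ 2 := pow_lt_pow_left₀ h5 (by positivity) two_ne_zero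
        have h7 : 0 < inner ℝ β β := real_inner_self_pos.2 hβ
        nlinarith
  refine ⟨f 0, β, fun x => ?_⟩
  rw [f_decomp hS x]
  congr 1
  exact hconst ⟨_, Submodule.starProjection_apply_mem _ x⟩ 0

end Main

/-- `f` is horizontally rigid for the set `C`: for every `c ∈ C` some isometry of `ℝⁿ⁺¹ = ℝⁿ × ℝ`
maps the graph of `f` onto the graph of `x ↦ f (c x)`. -/
def HorizontallyRigidFor {n : ℕ} (C : Set ℝ) (f : EuclideanSpace ℝ (Fin n) → ℝ) : Prop :=
  ∀ c ∈ C, ∃ φ : WithLp 2 (EuclideanSpace ℝ (Fin n) × ℝ) ≃ᵢ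
      WithLp 2 (EuclideanSpace ℝ (Fin n) × ℝ),
    φ '' {p | p.snd = f p.fst} = {p | p.snd = f (c • p.fst)}

/-- **Main theorem.** For every `n`, every continuous horizontally rigid function on `ℝⁿ` is
affine; it suffices that it is horizontally rigid for the powers `qʲ`, `j ∈ ℤ`, of one positive
number `q ≠ 1`. -/
theorem result (n : ℕ) (f : EuclideanSpace ℝ (Fin n) → ℝ) (hf : Continuous f) :
    (HorizontallyRigidFor (Ioi 0) f → ∃ (a : ℝ) (b : EuclideanSpace ℝ (Fin n)),
      ∀ x, f x = a + inner ℝ b x) ∧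
    ∀ q : ℝ, 0 < q → q ≠ 1 → HorizontallyRigidFor (range fun j : ℤ => q ^ j) f →
      ∃ (a : ℝ) (b : EuclideanSpace ℝ (Fin n)), ∀ x, f x = a + inner ℝ b x := by
  have main : ∀ q : ℝ, 0 < q → q ≠ 1 → HorizontallyRigidFor (range fun j : ℤ => q ^ j) f →
      ∃ (a : ℝ) (b : EuclideanSpace ℝ (Fin n)), ∀ x, f x = a + inner ℝ b x := by
    intro q hq hq1 h
    rcases lt_or_gt_of_ne hq1 with h1 | h1
    · refine affine_of_powers hf (q := q⁻¹) (one_lt_inv_iff₀.2 ⟨hq, h1⟩) fun j => ?_
      obtain ⟨φ, hφ⟩ := h (q ^ (-j)) ⟨-j, rfl⟩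
      refine ⟨φ, ?_⟩
      rw [inv_zpow']
      exact hφ
    · exact affine_of_powers hf h1 fun j => h (q ^ j) ⟨j, rfl⟩
  refine ⟨fun h => main 2 (by norm_num) (by norm_num) ?_, main⟩
  rintro _ ⟨j, rfl⟩
  exact h _ (show (0 : ℝ) < 2 ^ j from zpow_pos (by norm_num) j)

end Pool.Agent.Results.MP_530d8e_an.HorizontallyRigid
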